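import Mathlib

namespace Pool.Agent.H.MP_d572aa_gt

open MeasureTheory Set Module
open scoped Pointwise RealInnerProductSpace

/-- Planar determinant. -/
def dt (a b : ℝ × ℝ) : ℝ := a.1 * b.2 - a.2 * b.1

/-- The open standard triangle. -/
def R0 : Set (ℝ × ℝ) := regionBetween (fun _ => 0) (fun x => 1 - x) (Ioo 0 1)

theorem vol_R0 : volume R0 = ENNReal.ofReal (1 / 2) := by
  rw [R0, Measure.volume_eq_prod, volume_regionBetween_eq_integral (by simp)
    (((by fun_prop : Continuous fun x : ℝ => 1 - x).integrableOn_Icc).mono_set Ioo_subset_Icc_self)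
    measurableSet_Ioo (fun x hx => by linarith [hx.2])]
  congr 1
  rw [← integral_Ioc_eq_integral_Ioo, ← intervalIntegral.integral_of_le zero_le_one]
  simp only [Pi.sub_apply, sub_zero]
  rw [intervalIntegral.integral_sub (by simp) (by simp)]
  norm_num

/-- The linear map with columns `a`, `b`. -/
noncomputable def L (a b : ℝ × ℝ) : ℝ × ℝ →ₗ[ℝ] ℝ × ℝ :=
  Matrix.toLin (Basis.finTwoProd ℝ) (Basis.finTwoProd ℝ) !![a.1, b.1; a.2, b.2]

theorem L_apply (a b x : ℝ × ℝ) : L a b x = x.1 • a + x.2 • b := by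
  rw [L, Matrix.toLin_finTwoProd_apply]
  ext <;> simp <;> ring

/-- An open triangle. -/
def T (p a b : ℝ × ℝ) : Set (ℝ × ℝ) := p +ᵥ (L a b '' R0)

theorem vol_T (p a b : ℝ × ℝ) : volume (T p a b) = ENNReal.ofReal (|dt a b| / 2) := by
  rw [T, measure_vadd, Measure.addHaar_image_linearMap, vol_R0, L, LinearMap.det_toLin,
    ← ENNReal.ofReal_mul (abs_nonneg _), Matrix.det_fin_two_of, dt]
  congr 1; ring_nf

theorem mem_T {p a b z : ℝ × ℝ} (h : z ∈ T p a b) :
    ∃ s t : ℝ, 0 < s ∧ 0 < t ∧ s + t < 1 ∧ z = p + s • a + t • b := by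
  obtain ⟨_, ⟨x, hx, rfl⟩, rfl⟩ := h
  exact ⟨x.1, x.2, hx.1.1, hx.2.1, by linarith [hx.2.2], by simp [L_apply, add_assoc]⟩

theorem T_sub {S : Set (ℝ × ℝ)} (hS : Convex ℝ S) {p q r : ℝ × ℝ} (hp : p ∈ S) (hq : q ∈ S)
    (hr : r ∈ S) : T p (q - p) (r - p) ⊆ S := by
  intro z hz
  obtain ⟨s, t, hs, ht, h, rfl⟩ := mem_T hz
  have := hS.sum_mem (t := Finset.univ) (w := ![1 - s - t, s, t]) (z := ![p, q, r])
    (fun i _ => by fin_cases i <;> simp <;> linarith) (by simp [Fin.sum_univ_three]; ring)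
    (fun i _ => by fin_cases i <;> simpa)
  convert this using 1
  simp only [Fin.sum_univ_three, Matrix.cons_val_zero, Matrix.cons_val_one, Matrix.cons_val]
  module

theorem plane0 {S : Set (ℝ × ℝ)} (hS : Convex ℝ S) (hf : volume S ≠ ⊤) {p q r : ℝ × ℝ}
    (hp : p ∈ S) (hq : q ∈ S) (hr : r ∈ S) : |dt (q - p) (r - p)| / 2 ≤ volume.real S := by
  have := measureReal_mono (T_sub hS hp hq hr) hf
  rwa [Measure.real, vol_T, ENNReal.toReal_ofReal (by positivity)] at this

theorem plane1 {S : Set (ℝ × ℝ)} (hS : Convex ℝ S) (hf : volume S ≠ ⊤) {p q r w : ℝ × ℝ}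
    (hp : p ∈ S) (hq : q ∈ S) (hr : r ∈ S) (hw : w ∈ S) (h1 : 0 ≤ dt (q - p) (r - p))
    (h2 : dt (q - p) (w - p) ≤ 0) :
    (dt (q - p) (r - p) - dt (q - p) (w - p)) / 2 ≤ volume.real S := by
  let U : Set (ℝ × ℝ) := {z | 0 < dt (q - p) (z - p)}
  have mU : MeasurableSet U := (isOpen_lt continuous_const (by unfold dt; fun_prop)).measurableSet
  have e := measureReal_inter_add_sdiff (μ := volume) (s := S) mU hf
  have k : ∀ (c : ℝ × ℝ) (s t : ℝ),
      dt (q - p) (p + s • (q - p) + t • c - p) = t * dt (q - p) c := fun c s t => by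
    simp [dt]; ring
  have a2 : volume.real (T p (q - p) (w - p)) ≤ volume.real (S \ U) :=
    measureReal_mono (fun z hz => ⟨T_sub hS hp hq hw hz, by
      obtain ⟨s, t, hs, ht, h, rfl⟩ := mem_T hz
      simp only [U, mem_ofPred_eq, k, not_lt]
      nlinarith⟩) ((measure_mono sdiff_subset).trans_lt hf.lt_top).ne
  rw [Measure.real, vol_T, ENNReal.toReal_ofReal (by positivity), abs_of_nonpos h2] at a2
  rcases h1.eq_or_lt with h1 | h1
  · linarith [measureReal_nonneg (μ := volume) (s := S ∩ U)]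
  have a1 : volume.real (T p (q - p) (r - p)) ≤ volume.real (S ∩ U) :=
    measureReal_mono (fun z hz => ⟨T_sub hS hp hq hr hz, by
      obtain ⟨s, t, hs, ht, h, rfl⟩ := mem_T hz
      simp only [U, mem_ofPred_eq, k]
      positivity⟩) ((measure_mono inter_subset_left).trans_lt hf.lt_top).ne
  rw [Measure.real, vol_T, ENNReal.toReal_ofReal (by positivity), abs_of_pos h1] at a1
  linarith

theorem plane {S : Set (ℝ × ℝ)} (hS : Convex ℝ S) (hf : volume S ≠ ⊤) {p q r w : ℝ × ℝ}
    (hp : p ∈ S) (hq : q ∈ S) (hr : r ∈ S) (hw : w ∈ S) :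
    dt (q - p) (r - w) ^ 2 ≤ (2 * volume.real S) ^ 2 := by
  have e : dt (q - p) (r - w) = dt (q - p) (r - p) - dt (q - p) (w - p) := by simp [dt]; ring
  have a1 := abs_le.1 ((div_le_iff₀' two_pos).1 (plane0 hS hf hp hq hr))
  have a2 := abs_le.1 ((div_le_iff₀' two_pos).1 (plane0 hS hf hp hq hw))
  rw [e]
  apply sq_le_sq'
  all_goals
    rcases le_total 0 (dt (q - p) (r - p)) with h1 | h1 <;>
    rcases le_total 0 (dt (q - p) (w - p)) with h2 | h2 <;>
    first
      | linarith [a1.1, a1.2, a2.1, a2.2]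
      | linarith [plane1 hS hf hp hq hr hw h1 h2]
      | linarith [plane1 hS hf hp hq hw hr h2 h1]

/-- Coordinates of the Euclidean plane. -/
def co : EuclideanSpace ℝ (Fin 2) →ₗ[ℝ] ℝ × ℝ where
  toFun x := (x 0, x 1)
  map_add' x y := by simp
  map_smul' c x := by simp

theorem co_mp : MeasurePreserving co volume volume :=
  (volume_preserving_finTwoArrow ℝ).comp (PiLp.volume_preserving_ofLp (Fin 2))

theorem co_inj : Function.Injective co := fun x y h => by
  have := Prod.ext_iff.1 h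
  ext i; fin_cases i
  exacts [this.1, this.2]

theorem gram {W : Type*} [NormedAddCommGroup W] [InnerProductSpace ℝ W] [FiniteDimensional ℝ W]
    [MeasurableSpace W] [BorelSpace W] (h2 : finrank ℝ W = 2) {S : Set W} (hS : Convex ℝ S)
    (hc : IsCompact S) {p q r w : W} (hp : p ∈ S) (hq : q ∈ S) (hr : r ∈ S) (hw : w ∈ S) :
    ⟪q - p, q - p⟫ * ⟪r - w, r - w⟫ - ⟪q - p, r - w⟫ ^ 2 ≤ (2 * volume.real S) ^ 2 := by
  let b := ((stdOrthonormalBasis ℝ W).reindex (finCongr h2)).repr
  let ψ : W →ₗ[ℝ] ℝ × ℝ := co ∘ₗ b.toLinearEquiv.toLinearMap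
  have mp : MeasurePreserving ψ volume volume := co_mp.comp b.measurePreserving
  have inj : Function.Injective ψ := co_inj.comp b.injective
  have c := hc.image ψ.continuous_of_finiteDimensional
  have v := mp.measure_preimage c.measurableSet.nullMeasurableSet
  rw [inj.preimage_image] at v
  have := plane (hS.linear_image ψ) c.measure_lt_top.ne (mem_image_of_mem _ hp)
    (mem_image_of_mem _ hq) (mem_image_of_mem _ hr) (mem_image_of_mem _ hw)
  rw [← map_sub, ← map_sub, Measure.real, ← v] at this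
  refine le_of_eq_of_le ?_ this
  generalize q - p = x
  generalize r - w = y
  rw [← b.inner_map_map, ← b.inner_map_map y, ← b.inner_map_map x y]
  change _ = dt (co (b x)) (co (b y)) ^ 2
  simp [dt, co, PiLp.inner_apply, Fin.sum_univ_two, -LinearIsometryEquiv.inner_map_map,
    -inner_self_eq_norm_sq_to_K]
  ring

end Pool.Agent.H.MP_d572aa_gt
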